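import Pool.Agent.P8H72.Uni.Final

/-!
# A unicellular operator on Hilbert space whose spectrum is not a single point

The operator `A` is strictly lower triangular with respect to an orthonormal basis `e 0, e 1, ...`; it
is made of longer and longer nilpotent blocks `B j` with `‖1 - B j‖` tending to `1`, joined by tiny
links. All its invariant subspaces are the closed spans of `{e n, e (n+1), ...}`, and `0` and `2` belong
to its spectrum. The definitions `InvariantSubspace` and `Unicellular` are in
`Pool.Agent.P8H72.Uni.Defs`:

* `InvariantSubspace A M`: `M` is a linear subspace, closed, with `A x ∈ M` for all `x ∈ M`;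
* `Unicellular A`: for any two invariant subspaces `M`, `N` of `A`, `M ≤ N` or `N ≤ M`.
-/

namespace Pool.Agent.Results.MP_546dcb_an.NonSingletonSpectrum

open Pool.Agent.P8H72.Uni

universe u

/-- On every separable infinite-dimensional complex Hilbert space `H` there is a bounded operator `A`
whose closed invariant subspaces are totally ordered by inclusion (`A` is unicellular) and whose
spectrum contains the two distinct points `0` and `2`. -/
theorem result (H : Type u) [NormedAddCommGroup H] [InnerProductSpace ℂ H] [CompleteSpace H]
    [TopologicalSpace.SeparableSpace H] (hinf : ¬ FiniteDimensional ℂ H) :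
    ∃ A : H →L[ℂ] H, Unicellular A ∧ (0 : ℂ) ∈ spectrum ℂ A ∧ (2 : ℂ) ∈ spectrum ℂ A :=
  main H hinf

end Pool.Agent.Results.MP_546dcb_an.NonSingletonSpectrum
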